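import Pool.Agent.BES.Stmts

set_option autoImplicit false

/-!
# BES, row RCS: moments
-/

namespace Pool.Agent.BES.H60

open Pool.Agent.BES

/-- smooth functions -/
abbrev Smo (g : ℝ → ℝ) : Prop := ContDiff ℝ ((⊤ : ℕ∞) : WithTop ℕ∞) g

theorem smo_deriv {g : ℝ → ℝ} (hg : Smo g) : Differentiable ℝ g ∧ Smo (deriv g) :=
  contDiff_infty_iff_deriv.1 hg

theorem lg_lin (μ l : ℝ) {g h : ℝ → ℝ} (hg : Smo g) (hh : Smo h) (a c t : ℝ) :
    Lg μ l (fun s => a * g s + c * h s) t = a * Lg μ l g t + c * Lg μ l h t := by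
  have hd : ∀ {g h : ℝ → ℝ}, Differentiable ℝ g → Differentiable ℝ h →
      deriv (fun s => a * g s + c * h s) = fun s => a * deriv g s + c * deriv h s := by
    intro g h hg hh
    funext s
    exact (((hg s).hasDerivAt.const_mul a).add ((hh s).hasDerivAt.const_mul c)).deriv
  have h1 := smo_deriv hg
  have h2 := smo_deriv hh
  unfold Lg
  rw [hd h1.1 h2.1, hd (smo_deriv h1.2).1 (smo_deriv h2.2).1]
  ring

theorem deriv_scale (l : ℝ) {g : ℝ → ℝ} (hg : Differentiable ℝ g) :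
    deriv (fun t => g (l * t)) = fun t => l * deriv g (l * t) := by
  funext t
  have h1 : HasDerivAt (fun s : ℝ => l * s) l t := by
    simpa using (hasDerivAt_id t).const_mul l
  have h2 := (hg (l * t)).hasDerivAt.comp t h1
  rw [mul_comm]
  exact h2.deriv

theorem smo_scale (l : ℝ) {g : ℝ → ℝ} (hg : Smo g) : Smo (fun t => g (l * t)) :=
  hg.comp (contDiff_const.mul contDiff_id)

theorem smo_pow (n : ℕ) : Smo (fun t : ℝ => t ^ n) := contDiff_id.pow n

theorem lg_scale (μ l : ℝ) {g : ℝ → ℝ} (hg : Smo g)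
    (hode : ∀ y : ℝ, 4 * y * deriv (deriv g) y + 4 * (1 + μ) * deriv g y = - g y) (t : ℝ) :
    Lg μ l (fun s => g (l * s)) t = 0 := by
  have h1 := smo_deriv hg
  have h2 := smo_deriv h1.2
  have e1 : deriv (fun s => g (l * s)) = fun s => l * deriv g (l * s) := deriv_scale l h1.1
  have e2 : deriv (fun s => l * deriv g (l * s)) = fun s => l * (l * deriv (deriv g) (l * s)) := by
    have h3 := deriv_scale l h2.1
    funext s
    have h4 : HasDerivAt (fun s => deriv g (l * s)) (l * deriv (deriv g) (l * s)) s := by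
      have h5 : DifferentiableAt ℝ (fun s => deriv g (l * s)) s :=
        (smo_deriv (smo_scale l h1.2)).1 s
      have h6 := h5.hasDerivAt
      rw [h3] at h6
      exact h6
    exact (h4.const_mul l).deriv
  unfold Lg
  rw [e1, e2]
  have h3 := hode (l * t)
  show 4 * t * (l * (l * deriv (deriv g) (l * t))) + 4 * (1 + μ) * (l * deriv g (l * t)) +
    l * g (l * t) = 0
  linear_combination l * h3

theorem lg_pow (μ l : ℝ) (b : ℕ) (t : ℝ) :
    Lg μ l (fun s => s ^ (b + 1)) t =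
      4 * ((b : ℝ) + 1) * ((b : ℝ) + 1 + μ) * t ^ b + l * t ^ (b + 1) := by
  have e1 : deriv (fun s : ℝ => s ^ (b + 1)) = fun s => ((b : ℝ) + 1) * s ^ b := by
    funext s
    rw [(hasDerivAt_pow (b + 1) s).deriv]
    push_cast
    rfl
  have e2 : deriv (fun s : ℝ => ((b : ℝ) + 1) * s ^ b) =
      fun s => ((b : ℝ) + 1) * ((b : ℝ) * s ^ (b - 1)) := by
    funext s
    exact ((hasDerivAt_pow b s).const_mul _).deriv
  unfold Lg
  rw [e1, e2]
  show 4 * t * (((b : ℝ) + 1) * ((b : ℝ) * t ^ (b - 1))) + 4 * (1 + μ) * (((b : ℝ) + 1) * t ^ b) +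
    l * t ^ (b + 1) = _
  have h3 : (b : ℝ) * t ^ (b - 1) * t = (b : ℝ) * t ^ b := by
    rcases b with _ | b
    · simp
    · rw [Nat.add_sub_cancel, pow_succ]
      ring
  linear_combination 4 * ((b : ℝ) + 1) * h3

theorem exists_w (μ l : ℝ) (hl : l ≠ 0) (b : ℕ) :
    ∃ w : ℝ → ℝ, Smo w ∧ ∀ t, Lg μ l w t = t ^ b := by
  induction b with
  | zero =>
    refine ⟨fun _ => 1 / l, contDiff_const, ?_⟩
    intro t
    unfold Lg
    have e1 : deriv (fun _ : ℝ => 1 / l) = fun _ => (0 : ℝ) := by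
      funext s
      exact deriv_const s (1 / l)
    rw [e1]
    rw [deriv_const]
    field_simp
    simp
  | succ b ih =>
    obtain ⟨w, hw, hw2⟩ := ih
    refine ⟨fun s => (1 / l) * s ^ (b + 1) +
      (-(4 * ((b : ℝ) + 1) * ((b : ℝ) + 1 + μ)) / l) * w s, ?_, ?_⟩
    · exact (contDiff_const.mul (smo_pow (b + 1))).add (contDiff_const.mul hw)
    · intro t
      rw [lg_lin μ l (smo_pow (b + 1)) hw, lg_pow, hw2]
      field_simp
      ring

/-- **RCS** -/
theorem rcs (gso : GsoStmt) (ors : OrsStmt) : RcsStmt := by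
  intro m j R l u hR hl hu hne b
  obtain ⟨hsm, -, -, hode⟩ := gso (Lj m j)
  have hmu : mj m j = (Lj m j : ℝ) + 1 / 2 := by
    unfold mj Lj
    push_cast
    ring
  have hode' : ∀ y : ℝ, 4 * y * deriv (deriv (gs (Lj m j))) y +
      4 * (1 + mj m j) * deriv (gs (Lj m j)) y = - gs (Lj m j) y := by
    intro y
    rw [← hode y, hmu]
    ring
  obtain ⟨w, hw, hw2⟩ := exists_w (mj m j) l hl.ne' b
  set c : ℝ := - (w (R ^ 2) / gs (Lj m j) (l * R ^ 2)) with hc
  have hg : Smo (fun s => 1 * w s + c * gs (Lj m j) (l * s)) :=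
    (contDiff_const.mul hw).add (contDiff_const.mul (smo_scale l hsm))
  have h0 : (fun s => 1 * w s + c * gs (Lj m j) (l * s)) (R ^ 2) = 0 := by
    show 1 * w (R ^ 2) + c * gs (Lj m j) (l * R ^ 2) = 0
    rw [hc, neg_mul, div_mul_cancel₀ _ hne]
    ring
  have h1 := ors m j R l _ u hR hg h0 hu
  have h2 : ∀ t, Lg (mj m j) l (fun s => 1 * w s + c * gs (Lj m j) (l * s)) t = t ^ b := by
    intro t
    rw [lg_lin (mj m j) l hw (smo_scale l hsm), hw2, lg_scale (mj m j) l hsm hode']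
    ring
  simp only [h2] at h1
  exact h1

end Pool.Agent.BES.H60
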