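import Pool.Agent.BES.Stmts

set_option autoImplicit false

/-!
# BES, row SPS: no symmetric eigenfunction
-/

namespace Pool.Agent.BES.H60

open Pool.Agent.BES

/-- **SPS** -/
theorem sps (gso : GsoStmt) (rcs : RcsStmt) (dns : DnsStmt) : SpsStmt := by
  intro m R x hR hx hnz u hu hsy
  apply dns m R u hR hsy
  intro b j
  apply rcs m j R ((x / R) ^ 2) u hR (pow_pos (div_pos hx hR) 2) hu ?_ b
  have h1 : (x / R) ^ 2 * R ^ 2 = x ^ 2 := by
    rw [div_pow, div_mul_cancel₀ _ (pow_ne_zero 2 hR.ne')]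
  rw [h1, ← (gso (Lj m j)).2.2.1 x]
  exact hnz j

end Pool.Agent.BES.H60
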